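import Pool.Agent.V5helper14.Sep.Stm

set_option autoImplicit false

namespace Pool.Agent.V5helper11.SE

open Pool.Agent.V5helper14.Sep

theorem gg_nonneg {K : ℕ} (j : Fin 4) (m : Fin K) : 0 ≤ gg j m := by
  have h : (0 : ℝ) ≤ cc m := by
    unfold cc
    positivity
  fin_cases j <;> simp [gg, h]

theorem ss_pos (K : ℕ) (j : Fin 4) : 0 < ss K j := by
  have h : 0 ≤ ∑ m : Fin K, gg j m := Finset.sum_nonneg (fun m _ => gg_nonneg j m)
  unfold ss
  linarith

theorem t_COEF : S_COEF := by
  intro K q X α h0 h1
  rw [Fin.sum_univ_add]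
  simp only [coef, pts, Fin.append_left, Fin.append_right]
  funext l
  rw [Pi.add_apply, Finset.sum_apply, Finset.sum_apply]
  simp only [Pi.smul_apply, smul_eq_mul, Pi.zero_apply]
  refine Fin.cases ?_ (fun l => ?_) l
  · simp only [row, Fin.cons_zero, mul_one]
    rw [Finset.sum_neg_distrib, Finset.sum_comm]
    have h2 : ∀ j ∈ (Finset.univ : Finset (Fin 4)), ss K j * α j = α j + ∑ m : Fin K, α j * gg j m := by
      intro j _
      rw [← Finset.mul_sum]
      unfold ss
      ring
    rw [Finset.sum_congr rfl h2, Finset.sum_add_distrib, h0]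
    ring
  · simp only [row, Fin.cons_succ]
    refine Fin.addCases (fun m => ?_) (fun l => ?_) l
    · simp only [apx, emb, Fin.append_left]
      have h3 : ∑ x : Fin K, (-∑ j, α j * gg j x) * (Pi.single x (1 : ℝ) : Fin K → ℝ) m =
          -∑ j, α j * gg j m := by
        rw [Finset.sum_eq_single m]
        · rw [Pi.single_eq_same, mul_one]
        · intro x _ hx
          rw [Pi.single_eq_of_ne (Ne.symm hx), mul_zero]
        · intro h
          exact absurd (Finset.mem_univ m) h
      rw [h3, neg_add_eq_zero]
      apply Finset.sum_congr rfl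
      intro j _
      have := (ss_pos K j).ne'
      field_simp
    · simp only [apx, emb, Fin.append_right, Pi.zero_apply, mul_zero, Finset.sum_const_zero, zero_add]
      have h4 := congrFun h1 l
      rw [Finset.sum_apply] at h4
      simp only [Pi.smul_apply, smul_eq_mul, Pi.zero_apply] at h4
      rw [← h4]
      apply Finset.sum_congr rfl
      intro j _
      have := (ss_pos K j).ne'
      field_simp

end Pool.Agent.V5helper11.SE
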