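import Pool.Agent.V5helper14.Sep.Stm

set_option autoImplicit false

namespace Pool.Agent.V5helper11.SE

open Pool.Agent.V5helper14.Sep

theorem liftPt_comb {m : ℕ} (g s t : ℝ) (hst : s + t = 1) (u v : Fin m → ℝ) :
    liftPt g (s • u + t • v) = s • liftPt g u + t • liftPt g v := by
  funext l
  refine Fin.lastCases ?_ (fun l => ?_) l
  · simp only [liftPt, Pi.add_apply, Pi.smul_apply, smul_eq_mul, Fin.snoc_last]
    rw [← add_mul, hst, one_mul]
  · simp only [liftPt, Pi.add_apply, Pi.smul_apply, smul_eq_mul, Fin.snoc_castSucc]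
    ring

theorem liftPt_segment {m : ℕ} (g : ℝ) (u v : Fin m → ℝ) :
    liftPt g '' segment ℝ u v = segment ℝ (liftPt g u) (liftPt g v) := by
  ext x
  constructor
  · rintro ⟨y, ⟨s, t, hs, ht, hst, rfl⟩, rfl⟩
    exact ⟨s, t, hs, ht, hst, (liftPt_comb g s t hst u v).symm⟩
  · rintro ⟨s, t, hs, ht, hst, rfl⟩
    exact ⟨s • u + t • v, ⟨s, t, hs, ht, hst, rfl⟩, liftPt_comb g s t hst u v⟩

theorem height {n d : ℕ} (a : Fin n → Set (Fin d → ℝ)) (Γ : ℝ) (i : Fin (n + 1))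
    (x : Fin (d + 1) → ℝ) (hx : x ∈ liftA Γ a i) :
    x (Fin.last d) = Fin.snoc (α := fun _ => ℝ)
      (fun i : Fin n => (1 + Γ ^ (i : ℕ))⁻¹ * Γ ^ (i : ℕ)) 1 i := by
  revert hx
  refine Fin.lastCases ?_ (fun i => ?_) i
  · intro hx
    simp only [liftA, Fin.snoc_last, Set.mem_singleton_iff] at hx
    rw [hx]
    simp only [apex, Fin.snoc_last]
  · intro hx
    simp only [liftA, Fin.snoc_castSucc] at hx
    obtain ⟨y, _, rfl⟩ := hx
    simp only [liftPt, Fin.snoc_last, Fin.snoc_castSucc]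

theorem height_inj {n : ℕ} (Γ : ℝ) (hΓ : 1 < Γ) : Function.Injective
    (Fin.snoc (α := fun _ => ℝ) (fun i : Fin n => (1 + Γ ^ (i : ℕ))⁻¹ * Γ ^ (i : ℕ)) 1 :
      Fin (n + 1) → ℝ) := by
  have hpos : ∀ i : ℕ, 0 < Γ ^ i := fun i => pow_pos (by linarith) i
  have hlt : ∀ i : ℕ, (1 + Γ ^ i)⁻¹ * Γ ^ i ≠ 1 := by
    intro i h
    have h1 := hpos i
    field_simp at h
    linarith
  intro i j
  refine Fin.lastCases ?_ (fun i => ?_) i
  · refine Fin.lastCases ?_ (fun j => ?_) j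
    · intro _; rfl
    · intro h
      simp only [Fin.snoc_last, Fin.snoc_castSucc] at h
      exact absurd h.symm (hlt _)
  · refine Fin.lastCases ?_ (fun j => ?_) j
    · intro h
      simp only [Fin.snoc_last, Fin.snoc_castSucc] at h
      exact absurd h (hlt _)
    · intro h
      simp only [Fin.snoc_castSucc] at h
      have h1 := hpos (i : ℕ)
      have h2 := hpos (j : ℕ)
      have h3 : Γ ^ (i : ℕ) = Γ ^ (j : ℕ) := by
        have h4 : (1 + Γ ^ (i : ℕ))⁻¹ * Γ ^ (i : ℕ) = 1 - (1 + Γ ^ (i : ℕ))⁻¹ := by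
          field_simp
          ring
        have h5 : (1 + Γ ^ (j : ℕ))⁻¹ * Γ ^ (j : ℕ) = 1 - (1 + Γ ^ (j : ℕ))⁻¹ := by
          field_simp
          ring
        rw [h4, h5] at h
        have h6 : (1 + Γ ^ (i : ℕ))⁻¹ = (1 + Γ ^ (j : ℕ))⁻¹ := by linarith
        have h7 := inv_injective h6
        linarith
      have h8 : (i : ℕ) = (j : ℕ) := pow_right_injective₀ (by linarith) (by linarith) h3
      rw [Fin.ext h8]

theorem t_SD : S_SD := by
  refine ⟨?_, ?_⟩
  · intro n d a Γ _ ha i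
    refine Fin.lastCases ?_ (fun i => ?_) i
    · exact ⟨apex d, apex d, by simp only [liftA, Fin.snoc_last, segment_same]⟩
    · obtain ⟨u, v, huv⟩ := ha i
      refine ⟨liftPt (Γ ^ (i : ℕ)) u, liftPt (Γ ^ (i : ℕ)) v, ?_⟩
      rw [← liftPt_segment]
      simp only [liftA, Fin.snoc_castSucc]
      rw [huv]
  · intro n d a Γ hΓ i j hij
    rw [Set.disjoint_left]
    intro x hx hy
    apply hij
    apply height_inj Γ hΓ
    rw [← height a Γ i x hx, ← height a Γ j x hy]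

end Pool.Agent.V5helper11.SE
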